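import Pool.Agent.Helper12.ZT.Mono
import Pool.Agent.X90.DC.Final
import Pool.Agent.N665.LP.Few

set_option autoImplicit false

/-! Relations between the numbers `ζ(2n) / ζ(n) ^ 2` and arbitrary constants. -/

namespace Pool.Agent.Helper12.ZT

open Finset Pool.Agent.Y760.ZF
open Pool.Agent.Y760.ZG (mz)
open Pool.Agent.X90.DA (fx fx_inj eval_fx sum_arrow')
open Pool.Agent.X90.DB (Ad ix ex ex_ne)
open Pool.Agent.X90.DC (Gd Triv few Lr)
open Pool.Agent.N665.LP (ev card_coll)

variable {k m r D : ℕ}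

/-- the exponents of the homogenized monomial -/
noncomputable def lift (g : Fin m ⊕ Fin r → Fin (D + 1)) : Fin m ⊕ Fin (r + r) →₀ ℕ :=
  Finsupp.equivFunOnFinite.symm (Sum.elim (fun j => (g (Sum.inl j) : ℕ))
    (Fin.addCases (fun i => (g (Sum.inr i) : ℕ)) fun i => 2 * (D - (g (Sum.inr i) : ℕ))))

lemma lift_inl (g : Fin m ⊕ Fin r → Fin (D + 1)) (j : Fin m) : lift g (Sum.inl j) = g (Sum.inl j) := rfl
lemma lift_left (g : Fin m ⊕ Fin r → Fin (D + 1)) (i : Fin r) :
    lift g (Sum.inr (Fin.castAdd r i)) = g (Sum.inr i) := by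
  simp [lift]
lemma lift_right (g : Fin m ⊕ Fin r → Fin (D + 1)) (i : Fin r) :
    lift g (Sum.inr (Fin.natAdd r i)) = 2 * (D - g (Sum.inr i)) := by
  show (Fin.addCases (motive := fun _ => ℕ) (fun i => (g (Sum.inr i) : ℕ))
    (fun i => 2 * (D - (g (Sum.inr i) : ℕ))) (Fin.natAdd r i)) = _
  rw [Fin.addCases_right]

lemma lift_inj {g g' : Fin m ⊕ Fin r → Fin (D + 1)} (h : lift g = lift g') : g = g' := by
  funext a
  rcases a with j | i
  · have := DFunLike.congr_fun h (Sum.inl j)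
    rw [lift_inl, lift_inl] at this
    exact Fin.ext this
  · have := DFunLike.congr_fun h (Sum.inr (Fin.castAdd r i))
    rw [lift_left, lift_left] at this
    exact Fin.ext this

lemma prod_lift {R : Type*} [CommRing R] (g : Fin m ⊕ Fin r → Fin (D + 1)) (x : Fin m → R) (W Z : Fin r → R) :
    (lift g).prod (fun a e => (Sum.elim x (Fin.addCases W Z : Fin (r + r) → R) a) ^ e) =
      (∏ j, x j ^ (g (Sum.inl j) : ℕ)) * ∏ i, W i ^ (g (Sum.inr i) : ℕ) * Z i ^ (2 * (D - g (Sum.inr i))) := by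
  rw [Finsupp.prod_fintype _ _ fun i => pow_zero _, Fintype.prod_sum_type, Fin.prod_univ_add]
  simp only [lift_inl, lift_left, lift_right, Sum.elim_inl, Sum.elim_inr, Fin.addCases_left,
    Fin.addCases_right]
  rw [← prod_mul_distrib]

/-- the homogenized polynomial -/
noncomputable def hom (D : ℕ) (P : MvPolynomial (Fin m ⊕ Fin r) ℤ) : MvPolynomial (Fin m ⊕ Fin (r + r)) ℤ :=
  ∑ g : Fin m ⊕ Fin r → Fin (D + 1), MvPolynomial.monomial (lift g) (P.coeff (fx g))

lemma hom_degree (P : MvPolynomial (Fin m ⊕ Fin r) ℤ) : (hom D P).totalDegree ≤ (m + 3 * r) * D := by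
  refine (MvPolynomial.totalDegree_finsetSum _ _).trans (Finset.sup_le fun g _ => ?_)
  refine (MvPolynomial.totalDegree_monomial_le _ _).trans ?_
  rw [Finsupp.sum_fintype _ _ fun i => rfl, Fintype.sum_sum_type, Fin.sum_univ_add]
  simp only [lift_inl, lift_left, lift_right, id_eq]
  have h1 : ∑ j : Fin m, (g (Sum.inl j) : ℕ) ≤ m * D := by
    refine (sum_le_card_nsmul _ _ D fun j _ => ?_).trans (by simp)
    have := (g (Sum.inl j)).2
    omega
  have h2 : ∑ i : Fin r, (g (Sum.inr i) : ℕ) ≤ r * D := by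
    refine (sum_le_card_nsmul _ _ D fun j _ => ?_).trans (by simp)
    have := (g (Sum.inr j)).2
    omega
  have h3 : ∑ i : Fin r, 2 * (D - (g (Sum.inr i) : ℕ)) ≤ r * (2 * D) := by
    refine (sum_le_card_nsmul _ _ (2 * D) fun j _ => ?_).trans (by simp)
    omega
  calc _ ≤ m * D + (r * D + r * (2 * D)) := by omega
    _ = _ := by ring

lemma hom_coeff (P : MvPolynomial (Fin m ⊕ Fin r) ℤ) {H : ℝ} (hP : ∀ e, |((P.coeff e : ℤ) : ℝ)| ≤ H)
    (μ : Fin m ⊕ Fin (r + r) →₀ ℕ) : |(((hom D P).coeff μ : ℤ) : ℝ)| ≤ H := by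
  classical
  rw [hom, MvPolynomial.coeff_sum]
  by_cases h : ∃ g : Fin m ⊕ Fin r → Fin (D + 1), lift g = μ
  · obtain ⟨g, rfl⟩ := h
    rw [sum_eq_single g]
    · rw [MvPolynomial.coeff_monomial, if_pos rfl]
      exact hP _
    · intro g' _ hne
      rw [MvPolynomial.coeff_monomial, if_neg fun h3 => hne (lift_inj h3)]
    · intro h3
      exact absurd (mem_univ g) h3
  · rw [sum_eq_zero fun g _ => by
      rw [MvPolynomial.coeff_monomial, if_neg fun h3 => h ⟨g, h3⟩]]
    simpa using (abs_nonneg _).trans (hP 0)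

lemma hom_eval {R : Type*} [CommRing R] [Algebra ℤ R] (P : MvPolynomial (Fin m ⊕ Fin r) ℤ) (x : Fin m → R)
    (W Z : Fin r → R) : MvPolynomial.aeval (Sum.elim x (Fin.addCases W Z : Fin (r + r) → R)) (hom D P) =
      ∑ g : Fin m ⊕ Fin r → Fin (D + 1), ((P.coeff (fx g) : ℤ) : R) * ((∏ j, x j ^ (g (Sum.inl j) : ℕ)) *
        ∏ i, W i ^ (g (Sum.inr i) : ℕ) * Z i ^ (2 * (D - g (Sum.inr i)))) := by
  rw [hom, map_sum]
  refine sum_congr rfl fun g _ => ?_
  rw [MvPolynomial.aeval_monomial, ← prod_lift g x W Z]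
  simp

/-- the value of the homogenized polynomial -/
lemma hom_val {R : Type*} [Field R] (P : MvPolynomial (Fin m ⊕ Fin r) ℤ)
    (hP : P.totalDegree ≤ D) (x : Fin m → R) (W Z : Fin r → R) (hZ : ∀ i, Z i ≠ 0) :
    MvPolynomial.aeval (Sum.elim x (Fin.addCases W Z : Fin (r + r) → R)) (hom D P) =
      (∏ i, Z i ^ (2 * D)) * MvPolynomial.aeval (Sum.elim x fun i => W i / Z i ^ 2) P := by
  rw [hom_eval, eval_fx hP, mul_sum]
  refine sum_congr rfl fun g _ => ?_
  rw [Fintype.prod_sum_type]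
  simp only [Sum.elim_inl, Sum.elim_inr]
  have h1 : ∏ i, W i ^ (g (Sum.inr i) : ℕ) * Z i ^ (2 * (D - g (Sum.inr i))) =
      (∏ i, Z i ^ (2 * D)) * ∏ i, (W i / Z i ^ 2) ^ (g (Sum.inr i) : ℕ) := by
    rw [← prod_mul_distrib]
    refine prod_congr rfl fun i _ => ?_
    have h5 : 2 * D = 2 * (g (Sum.inr i) : ℕ) + 2 * (D - g (Sum.inr i)) := by
      have := (g (Sum.inr i)).2
      omega
    rw [div_pow, ← pow_mul, h5, pow_add]
    have h6 : Z i ^ (2 * (g (Sum.inr i) : ℕ)) ≠ 0 := pow_ne_zero _ (hZ i)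
    field_simp
  rw [h1]
  ring

/-- `ζ(2 n) / ζ(n) ^ 2` -/
noncomputable def t (n : ℕ) : ℂ := riemannZeta (2 * n) / riemannZeta n ^ 2

/-- the tuples with relations over the numbers `x` -/
def Exc (ℓ : Fin r → Lr k) (x : Fin m → ℂ) (D κ N : ℕ) (H : ℝ) : Set (Fin k → ℕ) :=
  {s | (∀ j, N ≤ s j ∧ s j ≤ κ * N) ∧ ∃ P : MvPolynomial (Fin m ⊕ Fin r) ℤ, P.totalDegree ≤ D ∧
    (∀ e, |((P.coeff e : ℤ) : ℝ)| ≤ H) ∧
    MvPolynomial.aeval (Sum.elim x fun i => t (ev s (ℓ i))) P = 0 ∧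
    ∃ y : Fin r → ℂ, MvPolynomial.aeval (Sum.elim x y) P ≠ 0}

/-- the patterns -/
def pat (ℓ : Fin r → Lr k) : Fin (r + r) → List (Lr k) :=
  Fin.addCases (fun i => [2 • ℓ i]) fun i => [ℓ i]

lemma ix_pat (ℓ : Fin r → Lr k) (s : Fin k → ℕ) : (fun i => ix s (pat ℓ i)) =
    (Fin.addCases (fun i => [2 * ev s (ℓ i)]) (fun i => [ev s (ℓ i)]) : Fin (r + r) → List ℕ) := by
  funext i
  refine Fin.addCases (fun i => ?_) (fun i => ?_) i
  · rw [pat, Fin.addCases_left, Fin.addCases_left, ix, List.map_singleton, ev]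
    have h1 : (2 • ℓ i).1 + ∑ j, (2 • ℓ i).2 j * s j = 2 * ((ℓ i).1 + ∑ j, (ℓ i).2 j * s j) := by
      rw [mul_add, mul_sum, Prod.smul_fst, smul_eq_mul]
      congr 1
      refine sum_congr rfl fun j _ => ?_
      rw [Prod.smul_snd, Pi.smul_apply, smul_eq_mul, mul_assoc]
    rw [h1]
  · rw [pat, Fin.addCases_right, Fin.addCases_right, ix, List.map_singleton, ev]

lemma comp_add {α β : Type*} (f : α → β) (a b : Fin r → α) (i : Fin (r + r)) :
    f (Fin.addCases (motive := fun _ => α) a b i) =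
      Fin.addCases (motive := fun _ => β) (fun i => f (a i)) (fun i => f (b i)) i := by
  refine Fin.addCases (fun i => ?_) (fun i => ?_) i
  · rw [Fin.addCases_left, Fin.addCases_left]
  · rw [Fin.addCases_right, Fin.addCases_right]

/-- **few tuples with relations over arbitrary constants** -/
theorem consts (m : ℕ) (ℓ : Fin r → Lr k) (hℓ : Function.Injective ℓ) (hu : ∀ i, (ℓ i).2 ≠ 0) (D κ : ℕ) :
    ∃ K : ℕ, ∀ (C : ℝ) (x : Fin m → ℂ), ∃ N₀ : ℕ, ∀ N : ℕ, N₀ ≤ N →
      (Exc ℓ x D κ N (C ^ N)).ncard ≤ K * N ^ (k - 1) := by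
  classical
  obtain ⟨K, hK⟩ := few m k (r + r) ((m + 3 * r) * D) (pat ℓ) (by
    intro i
    refine Fin.addCases (fun i => ?_) (fun i => ?_) i
    · have h1 : (2 • ℓ i).2 ≠ 0 := by
        intro h
        apply hu i
        funext j
        have h2 := congrFun h j
        rw [Prod.smul_snd, Pi.smul_apply, smul_eq_mul, Pi.zero_apply] at h2
        rw [Pi.zero_apply]
        omega
      rw [pat, Fin.addCases_left]
      exact ⟨fun u hu => by
        simp only [List.head?_cons, Option.mem_def, Option.some.injEq] at hu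
        rw [← hu]; exact h1, fun u hu => by
        rw [List.mem_singleton] at hu
        rw [hu]; exact Or.inl h1⟩
    · rw [pat, Fin.addCases_right]
      exact ⟨fun u hu' => by
        simp only [List.head?_cons, Option.mem_def, Option.some.injEq] at hu'
        rw [← hu']; exact hu i, fun u hu' => by
        rw [List.mem_singleton] at hu'
        rw [hu']; exact Or.inl (hu i)⟩) κ
  set E : Finset (Lr k) := univ.image ℓ with hE
  refine ⟨K + E.card * E.card * κ ^ (k - 1), fun C x => ?_⟩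
  obtain ⟨N₀, hN₀⟩ := hK C x
  refine ⟨N₀ + 2, fun N hN => ?_⟩
  have hfin : (Exc ℓ x D κ N (C ^ N)).Finite := by
    refine (Set.Finite.pi' (t := fun _ : Fin k => Set.Icc N (κ * N)) fun _ => Set.finite_Icc _ _).subset ?_
    intro s hs j
    exact ⟨(hs.1 j).1, (hs.1 j).2⟩
  rw [Set.ncard_eq_toFinset_card _ hfin]
  set B := hfin.toFinset with hB
  rw [← card_filter_add_card_filter_not (s := B) fun s => ∃ a ∈ E, ∃ a' ∈ E, a ≠ a' ∧ ev s a = ev s a']
  have hc1 : (B.filter fun s => ∃ a ∈ E, ∃ a' ∈ E, a ≠ a' ∧ ev s a = ev s a').card ≤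
      E.card * E.card * κ ^ (k - 1) * N ^ (k - 1) := by
    refine card_coll E (by omega) _ fun s hs => ?_
    rw [mem_filter, hB, Set.Finite.mem_toFinset] at hs
    exact ⟨hs.1.1, hs.2⟩
  have hc2 : (B.filter fun s => ¬ ∃ a ∈ E, ∃ a' ∈ E, a ≠ a' ∧ ev s a = ev s a').card ≤ K * N ^ (k - 1) := by
    refine hN₀ N (by omega) _ fun s hs => ?_
    rw [mem_filter, hB, Set.Finite.mem_toFinset] at hs
    obtain ⟨⟨hs1, P, h2, h3, h4, y, h5⟩, hcoll⟩ := hs
    have hn2 : ∀ i, 2 ≤ ev s (ℓ i) := by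
      intro i
      obtain ⟨j, hj⟩ := Function.ne_iff.1 (hu i)
      have h6 : 1 ≤ (ℓ i).2 j := Nat.one_le_iff_ne_zero.2 hj
      have h7 : (ℓ i).2 j * s j ≤ ∑ j, (ℓ i).2 j * s j :=
        single_le_sum (f := fun j => (ℓ i).2 j * s j) (fun _ _ => Nat.zero_le _) (mem_univ j)
      have h8 := (hs1 j).1
      have h9 : s j ≤ (ℓ i).2 j * s j := Nat.le_mul_of_pos_left _ h6
      rw [ev]
      omega
    have hinj : Function.Injective fun i => ev s (ℓ i) := by
      intro i i' hii'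
      by_contra hne
      exact hcoll ⟨ℓ i, mem_image_of_mem ℓ (mem_univ i), ℓ i', mem_image_of_mem ℓ (mem_univ i'),
        fun h => hne (hℓ h), hii'⟩
    refine ⟨hs1, hom D P, hom_degree P, hom_coeff P h3, ?_, fun htriv => ?_⟩
    · have h6 : (fun i => ((mz (ix s (pat ℓ i)) : ℝ) : ℂ)) =
          (Fin.addCases (fun i => ((mz [2 * ev s (ℓ i)] : ℝ) : ℂ)) (fun i => ((mz [ev s (ℓ i)] : ℝ) : ℂ)) :
            Fin (r + r) → ℂ) := by
        funext i
        have h7 : ix s (pat ℓ i) = _ := congrFun (ix_pat ℓ s) i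
        rw [h7]
        exact comp_add (fun u => ((mz u : ℝ) : ℂ)) _ _ i
      rw [h6, hom_val P h2]
      · rw [mul_eq_zero]
        right
        rw [← h4]
        congr 2
        funext a
        rcases a with j | i
        · rfl
        have h8 := mz_zeta (show 2 ≤ 2 * ev s (ℓ i) by have := hn2 i; omega)
        push_cast at h8
        show _ = riemannZeta (2 * (ev s (ℓ i) : ℕ)) / riemannZeta (ev s (ℓ i) : ℕ) ^ 2
        rw [mz_zeta (hn2 i), h8]
        rfl
      · intro i h7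
        have h8 := (mz_bounds (hn2 i)).1
        have h9 : mz [ev s (ℓ i)] = 0 := by exact_mod_cast h7
        linarith
    · apply h5
      set q : (Fin r → Fin (D + 1)) → ℂ := fun e => ∑ e' : Fin m → Fin (D + 1),
        ((P.coeff (fx (Sum.elim e' e)) : ℤ) : ℂ) * ∏ j, x j ^ (e' j : ℕ) with hq
      have h6 : ∀ e, q e = 0 := by
        refine coeff_zero q (key hinj (fun i => by have := hn2 i; omega) q fun Z hZ1 hZ => ?_)
        have h7 := htriv ℂ x Z (fun Q hQ => hQ) (fun u v _ _ => hZ u v)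
        have h8 : (fun i => ex Z (ix s (pat ℓ i))) =
            (Fin.addCases (fun i => Z [2 * ev s (ℓ i)]) (fun i => Z [ev s (ℓ i)]) : Fin (r + r) → ℂ) := by
          funext i
          have h9 : ix s (pat ℓ i) = _ := congrFun (ix_pat ℓ s) i
          rw [h9]
          refine Fin.addCases (fun i => ?_) (fun i => ?_) i
          · rw [Fin.addCases_left, Fin.addCases_left, ex_ne _ (by simp)]
          · rw [Fin.addCases_right, Fin.addCases_right, ex_ne _ (by simp)]
        rw [h8, hom_eval, sum_arrow'] at h7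
        rw [← h7]
        refine sum_congr rfl fun e _ => ?_
        rw [hq, sum_mul]
        refine sum_congr rfl fun e' _ => ?_
        simp only [Sum.elim_inl, Sum.elim_inr]
        ring
      rw [eval_fx h2, sum_arrow']
      refine sum_eq_zero fun e _ => ?_
      have h7 := h6 e
      have h8 : q e * ∏ i, y i ^ (e i : ℕ) = 0 := by rw [h7, zero_mul]
      rw [← h8, hq, sum_mul]
      refine sum_congr rfl fun e' _ => ?_
      rw [Fintype.prod_sum_type]
      simp only [Sum.elim_inl, Sum.elim_inr]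
      ring
  calc _ ≤ E.card * E.card * κ ^ (k - 1) * N ^ (k - 1) + K * N ^ (k - 1) := Nat.add_le_add hc1 hc2
    _ = _ := by ring

end Pool.Agent.Helper12.ZT
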