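import Pool.Agent.Y760.ZF.DSa
import Pool.Agent.X90.DA.Main
import Pool.Agent.X90.DC.Ind

set_option autoImplicit false

/-! Monomials in the numbers `ζ(2n) / ζ(n) ^ 2` and the stuffle product. -/

namespace Pool.Agent.Helper12.ZT

open Finset Pool.Agent.Y760.ZF
open Pool.Agent.Y760.ZG (mz hr_nil)
open Pool.Agent.X90.DA (fx fx_inj)
open Pool.Agent.X90.DC (Zt Zt_nil Zt_mul Zt_one powers)

variable {k : ℕ}

/-- the words of the monomial -/
def mono (D : ℕ) (n : Fin k → ℕ) (e : Fin k → Fin (D + 1)) : List (List ℕ) :=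
  (List.finRange k).flatMap fun i =>
    List.replicate (e i) [2 * n i] ++ List.replicate (2 * (D - e i)) [n i]

lemma prod_flatMap {A : Type*} [CommMonoid A] {ι β : Type*} (l : List ι) (f : ι → List β) (Z : β → A) :
    ((l.flatMap f).map Z).prod = (l.map fun i => ((f i).map Z).prod).prod := by
  induction l with
  | nil => simp
  | cons a l ih => rw [List.flatMap_cons, List.map_append, List.prod_append, ih, List.map_cons, List.prod_cons]

lemma prod_mono {A : Type*} [CommMonoid A] (Z : List ℕ → A) (D : ℕ) (n : Fin k → ℕ)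
    (e : Fin k → Fin (D + 1)) : ((mono D n e).map Z).prod =
      ∏ i, Z [2 * n i] ^ (e i : ℕ) * Z [n i] ^ (2 * (D - e i)) := by
  rw [mono, prod_flatMap, Fin.prod_univ_def]
  congr 1
  refine List.map_congr_left fun i _ => ?_
  rw [List.map_append, List.prod_append, List.map_replicate, List.map_replicate, List.prod_replicate,
    List.prod_replicate]

lemma mono_length (D : ℕ) (n : Fin k → ℕ) (e : Fin k → Fin (D + 1)) :
    (mono D n e).length ≤ k * (2 * D) := by
  rw [mono, List.length_flatMap]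
  have h1 : ∀ m ∈ (List.finRange k).map (fun i => (List.replicate (e i : ℕ) [2 * n i] ++
      List.replicate (2 * (D - e i)) [n i]).length), m ≤ 2 * D := by
    intro m hm
    rw [List.mem_map] at hm
    obtain ⟨i, -, rfl⟩ := hm
    rw [List.length_append, List.length_replicate, List.length_replicate]
    have := (e i).2
    omega
  have h2 := List.sum_le_card_nsmul _ _ h1
  rw [List.length_map, List.length_finRange, smul_eq_mul] at h2
  exact h2

lemma mono_mem (D : ℕ) (n : Fin k → ℕ) (e : Fin k → Fin (D + 1)) : ∀ u ∈ mono D n e,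
    ∃ i, u = [2 * n i] ∨ u = [n i] := by
  intro u hu
  rw [mono, List.mem_flatMap] at hu
  obtain ⟨i, -, hu⟩ := hu
  rw [List.mem_append, List.mem_replicate, List.mem_replicate] at hu
  rcases hu with hu | hu
  · exact ⟨i, Or.inl hu.2⟩
  · exact ⟨i, Or.inr hu.2⟩

lemma prod_stil {A : Type*} [CommRing A] (Z : List ℕ → A) (h1 : Z [] = 1)
    (hZ : ∀ u v, Z u * Z v = ((sti u v).map Z).sum) (M : List (List ℕ)) :
    (M.map Z).prod = ((stil M).map Z).sum := by
  induction M with
  | nil => rw [stil]; simp [h1]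
  | cons u M ih =>
    rw [List.map_cons, List.prod_cons, ih, stil]
    induction stil M with
    | nil => simp
    | cons v L ihL =>
      rw [List.map_cons, List.sum_cons, mul_add, hZ, ihL, List.flatMap_cons, List.map_append,
        List.sum_append]

lemma mv_zero {k : ℕ} (F : MvPolynomial (Fin k) ℂ)
    (h : ∀ y : Fin k → ℂ, (∀ i, y i ≠ 0) → MvPolynomial.eval y F = 0) : F = 0 := by
  have h1 : F * ∏ i, MvPolynomial.X i = 0 := by
    refine MvPolynomial.funext fun y => ?_
    rw [map_mul, map_prod, map_zero]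
    simp only [MvPolynomial.eval_X]
    by_cases hy : ∀ i, y i ≠ 0
    · rw [h y hy, zero_mul]
    · push Not at hy
      obtain ⟨i, hi⟩ := hy
      rw [Finset.prod_eq_zero (mem_univ i) hi, mul_zero]
  rcases mul_eq_zero.1 h1 with h2 | h2
  · exact h2
  · exfalso
    rw [Finset.prod_eq_zero_iff] at h2
    obtain ⟨i, -, hi⟩ := h2
    exact MvPolynomial.X_ne_zero i hi

/-- values with `c (2 a) = Y a * c a ^ 2` -/
noncomputable def cval (Y : ℕ → ℂ) : ℕ → ℂ
  | 0 => 1
  | (m + 1) => if (m + 1) % 2 = 0 then Y ((m + 1) / 2) * (cval Y ((m + 1) / 2)) ^ 2 else 1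
termination_by m => m
decreasing_by omega

lemma cval_two (Y : ℕ → ℂ) {a : ℕ} (ha : 1 ≤ a) : cval Y (2 * a) = Y a * cval Y a ^ 2 := by
  obtain ⟨m, hm⟩ : ∃ m, 2 * a = m + 1 := ⟨2 * a - 1, by omega⟩
  rw [hm, cval, if_pos (by omega), show (m + 1) / 2 = a by omega]

lemma cval_ne (Y : ℕ → ℂ) (hY : ∀ a, Y a ≠ 0) (m : ℕ) : cval Y m ≠ 0 := by
  induction m using Nat.strong_induction_on with
  | _ m ih =>
    cases m with
    | zero => rw [cval]; exact one_ne_zero
    | succ m =>
      rw [cval]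
      split_ifs with h
      · exact mul_ne_zero (hY _) (pow_ne_zero _ (ih _ (by omega)))
      · exact one_ne_zero

lemma key {k D : ℕ} {n : Fin k → ℕ} (hn : Function.Injective n) (h1 : ∀ i, 1 ≤ n i)
    (q : (Fin k → Fin (D + 1)) → ℂ)
    (h : ∀ Z : List ℕ → ℂ, Z [] = 1 → (∀ u v, Z u * Z v = ((sti u v).map Z).sum) →
      ∑ e, q e * ∏ i, Z [2 * n i] ^ (e i : ℕ) * Z [n i] ^ (2 * (D - e i)) = 0)
    (y : Fin k → ℂ) (hy : ∀ i, y i ≠ 0) : ∑ e, q e * ∏ i, y i ^ (e i : ℕ) = 0 := by
  classical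
  set Y : ℕ → ℂ := fun a => if h : ∃ i, n i = a then y h.choose else 1 with hY
  have hYn : ∀ i, Y (n i) = y i := by
    intro i
    have h2 : ∃ i', n i' = n i := ⟨i, rfl⟩
    simp only [hY]
    rw [dif_pos h2, hn h2.choose_spec]
  have hY0 : ∀ a, Y a ≠ 0 := by
    intro a
    simp only [hY]
    split_ifs with h2
    · exact hy _
    · exact one_ne_zero
  obtain ⟨B, hB⟩ := powers (univ.image n ∪ univ.image fun i => 2 * n i) (cval Y) (by
    intro s hs
    rw [mem_union, mem_image, mem_image] at hs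
    rcases hs with ⟨i, -, rfl⟩ | ⟨i, -, rfl⟩
    · exact h1 i
    · have := h1 i
      omega)
  have hZ1 : ∀ i, Zt B [n i] = cval Y (n i) := fun i => by
    rw [Zt_one, hB (n i) (mem_union_left _ (mem_image_of_mem n (mem_univ i)))]
  have hZ2 : ∀ i, Zt B [2 * n i] = y i * cval Y (n i) ^ 2 := fun i => by
    rw [Zt_one, hB (2 * n i) (mem_union_right _ (mem_image_of_mem (fun i => 2 * n i) (mem_univ i))),
      cval_two Y (h1 i), hYn]
  have h3 := h (Zt B) (Zt_nil B) (Zt_mul B)
  have h4 : ∀ e : Fin k → Fin (D + 1), ∏ i, Zt B [2 * n i] ^ (e i : ℕ) * Zt B [n i] ^ (2 * (D - e i)) =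
      (∏ i, cval Y (n i) ^ (2 * D)) * ∏ i, y i ^ (e i : ℕ) := by
    intro e
    rw [← prod_mul_distrib]
    refine prod_congr rfl fun i _ => ?_
    rw [hZ1, hZ2, mul_pow, ← pow_mul]
    have h5 : 2 * D = 2 * (e i : ℕ) + 2 * (D - e i) := by
      have := (e i).2
      omega
    rw [h5, pow_add]
    ring
  simp only [h4] at h3
  have h5 : (∏ i, cval Y (n i) ^ (2 * D)) * ∑ e, q e * ∏ i, y i ^ (e i : ℕ) = 0 := by
    rw [← h3, mul_sum]
    exact sum_congr rfl fun e _ => by ring
  exact (mul_eq_zero.1 h5).resolve_left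
    (prod_ne_zero_iff.2 fun i _ => pow_ne_zero _ (cval_ne Y hY0 _))

/-- a polynomial is determined by the values at nonzero points -/
lemma coeff_zero {D : ℕ} (q : (Fin k → Fin (D + 1)) → ℂ)
    (h : ∀ y : Fin k → ℂ, (∀ i, y i ≠ 0) → ∑ e, q e * ∏ i, y i ^ (e i : ℕ) = 0)
    (e : Fin k → Fin (D + 1)) : q e = 0 := by
  classical
  have h1 : (∑ e, MvPolynomial.monomial (fx e) (q e) : MvPolynomial (Fin k) ℂ) = 0 := by
    refine mv_zero _ fun y hy => ?_
    rw [map_sum, ← h y hy]
    refine sum_congr rfl fun e _ => ?_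
    rw [MvPolynomial.eval_monomial, Finsupp.prod_fintype _ _ fun i => pow_zero _]
    rfl
  have h2 := congrArg (MvPolynomial.coeff (fx e)) h1
  rw [MvPolynomial.coeff_zero, MvPolynomial.coeff_sum, sum_eq_single e] at h2
  · rwa [MvPolynomial.coeff_monomial, if_pos rfl] at h2
  · intro e' _ hne
    rw [MvPolynomial.coeff_monomial, if_neg fun h3 => hne (fx_inj h3)]
  · intro h3
    exact absurd (mem_univ e) h3

lemma mz_bounds {a : ℕ} (ha : 2 ≤ a) : 1 ≤ mz [a] ∧ mz [a] ≤ 2 := by
  have h1 : mz [a] = ∑' k : ℕ, 1 / ((k + 1 : ℕ) : ℝ) ^ a := by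
    rw [mz]
    exact tsum_congr fun k => by rw [hr_nil]
  have hs : Summable fun k : ℕ => 1 / ((k + 1 : ℕ) : ℝ) ^ a :=
    (summable_nat_add_iff 1).2 (Real.summable_one_div_nat_pow.2 (by omega))
  constructor
  · rw [h1]
    have h2 := hs.sum_le_tsum {0} (fun i _ => by positivity)
    simpa using h2
  · refine (le_abs_self _).trans (mz_bd ?_)
    intro k hk
    simp only [List.head?_cons, Option.mem_def, Option.some.injEq] at hk
    simp only [List.length_singleton]
    omega

lemma mz_zeta {a : ℕ} (ha : 2 ≤ a) : riemannZeta a = ((mz [a] : ℝ) : ℂ) := by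
  have h1 : mz [a] = ∑' k : ℕ, 1 / ((k + 1 : ℕ) : ℝ) ^ a := by
    rw [mz]
    exact tsum_congr fun k => by rw [hr_nil]
  rw [zeta_nat_eq_tsum_of_gt_one (by omega : 1 < a), h1]
  push_cast
  have hs : Summable fun n : ℕ => 1 / (n : ℂ) ^ a := by
    have h2 := (Real.summable_one_div_nat_pow (p := a)).2 (by omega)
    have h3 := Complex.ofRealCLM.summable h2
    simpa using h3
  rw [hs.tsum_eq_zero_add]
  simp [show a ≠ 0 by omega]

end Pool.Agent.Helper12.ZT
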