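import Pool.Agent.Helper12.ZT.Mono

set_option autoImplicit false

/-! Relations between the numbers `ζ(2n) / ζ(n) ^ 2` at arbitrary arguments. -/

namespace Pool.Agent.Helper12.ZT

open Finset Pool.Agent.Y760.ZF
open Pool.Agent.Y760.ZG (mz)
open Pool.Agent.X90.DA (fx fx_inj)
open Pool.Agent.X90.DB (list_countA)

variable {k : ℕ}

/-- regrouping of a sum over the exponents -/
lemma regroup {R : Type*} [CommRing R] {l D : ℕ} (n : Fin k → ℕ) (p : Fin l → (Fin k → Fin (D + 1)) → ℤ)
    (b : Fin l → R) (F : List (List ℕ) → R) :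
    ∑ M ∈ (univ : Finset (Fin k → Fin (D + 1))).image (mono D n),
      (∑ j, b j * ((∑ e ∈ univ.filter (fun e => mono D n e = M), p j e : ℤ) : R)) * F M =
    ∑ e, (∑ j, b j * (p j e : R)) * F (mono D n e) := by
  classical
  rw [← sum_fiberwise_of_maps_to (s := (univ : Finset (Fin k → Fin (D + 1))))
    (t := univ.image (mono D n)) (g := mono D n) (fun e _ => mem_image_of_mem _ (mem_univ e))]
  refine sum_congr rfl fun M _ => ?_
  have h1 : ∀ e ∈ univ.filter (fun e => mono D n e = M), (∑ j, b j * (p j e : R)) * F (mono D n e) =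
      (∑ j, b j * (p j e : R)) * F M := by
    intro e he
    rw [(mem_filter.1 he).2]
  rw [sum_congr rfl h1, ← sum_mul]
  congr 1
  rw [sum_comm]
  refine sum_congr rfl fun j _ => ?_
  rw [Int.cast_sum, mul_sum]

/-- **Relations between the numbers `ζ(2n) / ζ(n) ^ 2` at arbitrary arguments.** -/
theorem uniform {l : ℕ} (β : Fin l → ℝ) (hβ : ∀ j, IsAlgebraic ℚ (β j)) (hli : LinearIndependent ℚ β)
    (k D : ℕ) (κ C : ℝ) :
    ∃ B : ℝ, 1 < B ∧ ∃ N₀ : ℕ, ∀ N : ℕ, N₀ ≤ N → ∀ n : Fin k → ℕ, Function.Injective n →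
      (∀ i, N ≤ n i ∧ (n i : ℝ) ≤ κ * N) → ∀ p : Fin l → (Fin k → Fin (D + 1)) → ℤ,
      (∀ j e, |(p j e : ℝ)| ≤ C ^ N) → (∃ j e, p j e ≠ 0) →
      (B ^ N)⁻¹ < |∑ j, β j * ∑ e, (p j e : ℝ) * ∏ i, (mz [2 * n i] / mz [n i] ^ 2) ^ (e i : ℕ)| := by
  classical
  set q : ℕ := Fintype.card (Fin k → Fin (D + 1)) with hq
  obtain ⟨B, hB, n0, H⟩ := mainM β hβ hli q 1 (k * (2 * D)) (2 * κ) ((q : ℝ) * (|C| + 1))
  have hB1 : (1 : ℝ) ≤ 4 ^ (k * D) := one_le_pow₀ (by norm_num)
  refine ⟨B * 4 ^ (k * D), by nlinarith, n0 + 2, fun N hN n hn hnN p hp hne => ?_⟩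
  have hq1 : 1 ≤ q := Fintype.card_pos_iff.2 ⟨fun _ => 0⟩
  have hn2 : ∀ i, 2 ≤ n i := fun i => by have := (hnN i).1; omega
  set T : Finset (List (List ℕ)) := univ.image (mono D n) with hT
  set c : List (List ℕ) → Fin l → ℤ := fun M j => ∑ e ∈ univ.filter (fun e => mono D n e = M), p j e
    with hc
  have hTq : T.card ≤ q := by
    rw [hT, hq, ← card_univ]
    exact card_image_le
  have hTm : ∀ M ∈ T, M.length ≤ k * (2 * D) ∧ ∀ u ∈ M, Cl N (2 * κ * N) 1 u := by
    intro M hM
    rw [hT, mem_image] at hM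
    obtain ⟨e, -, rfl⟩ := hM
    refine ⟨mono_length D n e, fun u hu => ?_⟩
    obtain ⟨i, hi⟩ := mono_mem D n e u hu
    have h1 := (hnN i).1
    have h2 := (hnN i).2
    have h3 : (0 : ℝ) ≤ n i := Nat.cast_nonneg _
    rcases hi with rfl | rfl
    · refine ⟨by simp, fun m hm => ?_, fun m hm => ?_⟩
      · rw [List.mem_singleton] at hm
        subst hm
        refine ⟨by omega, ?_⟩
        push_cast
        linarith
      · simp only [List.head?_cons, Option.mem_def, Option.some.injEq] at hm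
        omega
    · refine ⟨by simp, fun m hm => ?_, fun m hm => ?_⟩
      · rw [List.mem_singleton] at hm
        subst hm
        refine ⟨by omega, ?_⟩
        linarith
      · simp only [List.head?_cons, Option.mem_def, Option.some.injEq] at hm
        omega
  have hcb : ∀ M ∈ T, ∀ j, |(c M j : ℝ)| ≤ ((q : ℝ) * (|C| + 1)) ^ N := by
    intro M _ j
    have hq1' : (1 : ℝ) ≤ q := by exact_mod_cast hq1
    have h1 : |(c M j : ℝ)| ≤ q * (|C| + 1) ^ N := by
      rw [hc]
      push_cast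
      refine (abs_sum_le_sum_abs _ _).trans ?_
      have h2 : ∀ e ∈ univ.filter (fun e => mono D n e = M), |(p j e : ℝ)| ≤ (|C| + 1) ^ N := by
        intro e _
        refine (hp j e).trans ((le_abs_self _).trans ?_)
        rw [abs_pow]
        exact pow_le_pow_left₀ (abs_nonneg C) (by linarith) N
      refine (sum_le_card_nsmul _ _ _ h2).trans ?_
      rw [nsmul_eq_mul]
      refine mul_le_mul_of_nonneg_right ?_ (by positivity)
      exact_mod_cast (card_filter_le _ _).trans (le_of_eq (by rw [card_univ]))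
    refine h1.trans ?_
    rw [mul_pow]
    exact mul_le_mul_of_nonneg_right (le_self_pow₀ hq1' (by omega)) (by positivity)
  -- the values
  have hS : ∑ M ∈ T, (∑ j, β j * (c M j : ℝ)) * (M.map mz).prod =
      (∏ i, mz [n i] ^ (2 * D)) *
        ∑ j, β j * ∑ e, (p j e : ℝ) * ∏ i, (mz [2 * n i] / mz [n i] ^ 2) ^ (e i : ℕ) := by
    rw [hT, hc, regroup n p β fun M => (M.map mz).prod]
    have h1 : ∀ e : Fin k → Fin (D + 1), ((mono D n e).map mz).prod = (∏ i, mz [n i] ^ (2 * D)) *
        ∏ i, (mz [2 * n i] / mz [n i] ^ 2) ^ (e i : ℕ) := by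
      intro e
      rw [prod_mono, ← prod_mul_distrib]
      refine prod_congr rfl fun i _ => ?_
      have h2 : mz [n i] ≠ 0 := by
        have := (mz_bounds (hn2 i)).1
        linarith
      have h5 : 2 * D = 2 * (e i : ℕ) + 2 * (D - e i) := by
        have := (e i).2
        omega
      rw [div_pow, ← pow_mul, h5, pow_add]
      have h6 : mz [n i] ^ (2 * (e i : ℕ)) ≠ 0 := pow_ne_zero _ h2
      field_simp
    simp only [h1]
    rw [mul_sum]
    simp only [mul_sum, sum_mul]
    rw [sum_comm]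
    refine sum_congr rfl fun j _ => sum_congr rfl fun e _ => ?_
    ring
  rcases H N (by omega) T hTq hTm c hcb with ⟨h0, -⟩ | hgt
  · exfalso
    obtain ⟨j, e, hje⟩ := hne
    have h1 : ∀ Z : List ℕ → ℂ, Z [] = 1 → (∀ u v, Z u * Z v = ((sti u v).map Z).sum) →
        ∑ e, (p j e : ℂ) * ∏ i, Z [2 * n i] ^ (e i : ℕ) * Z [n i] ^ (2 * (D - e i)) = 0 := by
      intro Z hZ1 hZ
      set La : Finset (List ℕ) := T.biUnion fun M => (stil M).toFinset with hLa
      have h2 := regroup n (fun _ : Fin 1 => p j) (fun _ => (1 : ℂ)) fun M => (M.map Z).prod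
      simp only [Finset.univ_unique, Finset.sum_singleton, one_mul, prod_mono] at h2
      rw [← h2, ← hT]
      have h3 : ∀ M ∈ T, (M.map Z).prod = ∑ w ∈ La, (((stil M).countP (· = w) : ℕ) : ℂ) * Z w := by
        intro M hM
        rw [prod_stil Z hZ1 hZ]
        exact list_countA _ _ _ fun w hw => mem_biUnion.2 ⟨M, hM, List.mem_toFinset.2 hw⟩
      rw [sum_congr rfl fun M hM => by rw [h3 M hM]]
      simp only [mul_sum]
      rw [sum_comm]
      refine sum_eq_zero fun w _ => ?_
      have h4 : (co T c w j : ℂ) * Z w = 0 := by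
        rw [h0 w j, Int.cast_zero, zero_mul]
      rw [← h4, co]
      push_cast
      rw [sum_mul]
      refine sum_congr rfl fun M _ => ?_
      simp only [hc]
      push_cast
      ring
    have h2 := coeff_zero _ (key hn (fun i => by have := hn2 i; omega) (fun e => (p j e : ℂ)) h1) e
    exact hje (by exact_mod_cast h2)
  · rw [hS, abs_mul] at hgt
    have h1 : |∏ i, mz [n i] ^ (2 * D)| ≤ 4 ^ (k * D) := by
      rw [abs_prod]
      refine (prod_le_prod (fun i _ => abs_nonneg _) (g := fun _ => (4 : ℝ) ^ D) fun i _ => ?_).trans ?_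
      · obtain ⟨h2, h3⟩ := mz_bounds (hn2 i)
        rw [abs_of_nonneg (by positivity), pow_mul]
        exact pow_le_pow_left₀ (by positivity) (by nlinarith) D
      · rw [prod_const, card_univ, Fintype.card_fin, ← pow_mul, mul_comm D k]
    have h2 := mul_le_mul_of_nonneg_right h1 (abs_nonneg
      (∑ j, β j * ∑ e, (p j e : ℝ) * ∏ i, (mz [2 * n i] / mz [n i] ^ 2) ^ (e i : ℕ)))
    have h3 := lt_of_lt_of_le hgt h2
    have hB0 : 0 < B := by linarith
    have h4pos : (0 : ℝ) < 4 ^ (k * D) := by positivity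
    have h4 : ((B * 4 ^ (k * D)) ^ N)⁻¹ ≤ (B ^ N)⁻¹ / 4 ^ (k * D) := by
      rw [mul_pow, mul_inv, div_eq_mul_inv]
      refine mul_le_mul_of_nonneg_left ?_ (by positivity)
      exact inv_anti₀ h4pos (le_self_pow₀ hB1 (by omega))
    refine lt_of_le_of_lt h4 ?_
    rw [div_lt_iff₀ h4pos, mul_comm]
    exact h3

end Pool.Agent.Helper12.ZT
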